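import Pool.Agent.QUD.StmtsX

/-!
# Squad QUD (MP_5b0138_an), row NCL: no corner is cut off
-/

set_option autoImplicit false

namespace Pool.Agent.QUD.H89

open Complex Filter Topology Pool.Agent.H62T
open Pool.Agent.AEU Pool.Agent.XQ

theorem ip_self_norm (z : ℂ) : ip z z = ‖z‖ ^ 2 := by
  rw [Complex.sq_norm, Complex.normSq_apply]; rfl

theorem ip_comm' (z w : ℂ) : ip z w = ip w z := by
  simp only [ip]; ring

theorem ip_add' (a z w : ℂ) : ip a (z + w) = ip a z + ip a w := by
  simp only [ip, Complex.add_re, Complex.add_im]; ring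

theorem ip_sub' (a z w : ℂ) : ip a (z - w) = ip a z - ip a w := by
  simp only [ip, Complex.sub_re, Complex.sub_im]; ring

theorem ip_rm (a z : ℂ) (r : ℝ) : ip a ((r : ℂ) * z) = r * ip a z := by
  simp only [ip, Complex.mul_re, Complex.mul_im, Complex.ofReal_re, Complex.ofReal_im]; ring

theorem ip_Irot (a : ℂ) : ip a (I * a) = 0 := by
  simp only [ip, Complex.mul_re, Complex.mul_im, Complex.I_re, Complex.I_im]; ring

theorem ip_Idt (a b : ℂ) : ip b (I * a) = dt a b := by
  simp only [ip, dt, Complex.mul_re, Complex.mul_im, Complex.I_re, Complex.I_im]; ring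

/-- an orthonormal frame -/
structure Fr (τ ν : ℂ) : Prop where
  tt : ip τ τ = 1
  nn : ip ν ν = 1
  tn : ip τ ν = 0

theorem Fr.D {τ ν : ℂ} (h : Fr τ ν) :
    ∃ D : ℝ, D ^ 2 = 1 ∧ ν.re = -D * τ.im ∧ ν.im = D * τ.re := by
  have h1 := h.tt
  have h2 := h.nn
  have h3 := h.tn
  simp only [ip] at h1 h2 h3
  refine ⟨τ.re * ν.im - τ.im * ν.re, ?_, ?_, ?_⟩
  · have e : (τ.re * ν.im - τ.im * ν.re) ^ 2
        = (τ.re * τ.re + τ.im * τ.im) * (ν.re * ν.re + ν.im * ν.im)
          - (τ.re * ν.re + τ.im * ν.im) ^ 2 := by ring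
    rw [e, h1, h2, h3]; norm_num
  · linear_combination (-ν.re) * h1 + τ.re * h3
  · linear_combination (-ν.im) * h1 + τ.im * h3

theorem Fr.pars {τ ν : ℂ} (h : Fr τ ν) (z w : ℂ) :
    ip z w = ip τ z * ip τ w + ip ν z * ip ν w := by
  obtain ⟨D, hD, h1, h2⟩ := h.D
  have h3 := h.tt
  simp only [ip] at *
  rw [h1, h2]
  linear_combination (-(z.re * w.re + z.im * w.im)) * h3
    - ((τ.re * z.im - τ.im * z.re) * (τ.re * w.im - τ.im * w.re)) * hD

theorem Fr.absdt {τ ν : ℂ} (h : Fr τ ν) (z w : ℂ) :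
    |dt z w| = |ip τ z * ip ν w - ip ν z * ip τ w| := by
  obtain ⟨D, hD, h1, h2⟩ := h.D
  have h3 := h.tt
  have e : ip τ z * ip ν w - ip ν z * ip τ w = D * dt z w := by
    simp only [ip, dt] at *
    rw [h1, h2]
    linear_combination (D * (z.re * w.im - z.im * w.re)) * h3
  rw [e, abs_mul]
  have : |D| = 1 := by
    have := sq_abs D
    rw [hD] at this
    have h0 := abs_nonneg D
    nlinarith
  rw [this, one_mul]

theorem Fr.norm {τ ν : ℂ} (h : Fr τ ν) (z : ℂ) : ‖z‖ ^ 2 = ip τ z ^ 2 + ip ν z ^ 2 := by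
  rw [← ip_self_norm, h.pars z z]; ring

theorem Fr.ext {τ ν : ℂ} (h : Fr τ ν) {z w : ℂ} (h1 : ip τ z = ip τ w) (h2 : ip ν z = ip ν w) :
    z = w := by
  have h3 := h.norm (z - w)
  rw [ip_sub', ip_sub', h1, h2, sub_self, sub_self] at h3
  have : ‖z - w‖ = 0 := by
    have : ‖z - w‖ ^ 2 = 0 := by rw [h3]; norm_num
    exact pow_eq_zero_iff (two_ne_zero) |>.1 this
  exact sub_eq_zero.1 (norm_eq_zero.1 this)

theorem Fr.exists {ν a : ℂ} (h : ip ν ν = 1) (ha : ip a a = 1) {c : ℝ}
    (he : c ^ 2 + ip a ν ^ 2 = 1) : ∃ τ : ℂ, Fr τ ν ∧ ip τ a = c := by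
  have h0 : Fr (I * ν) ν := by
    refine ⟨?_, h, ?_⟩
    · rw [← h]
      simp only [ip, Complex.mul_re, Complex.mul_im, Complex.I_re, Complex.I_im]; ring
    · rw [ip_comm', ip_Irot]
  have h1 := h0.pars a a
  rw [ha] at h1
  have h2 : ip (I * ν) a ^ 2 = c ^ 2 := by
    rw [ip_comm' a ν] at he
    nlinarith
  rcases sq_eq_sq_iff_eq_or_eq_neg.1 h2 with h3 | h3
  · exact ⟨_, h0, h3⟩
  · refine ⟨-(I * ν), ⟨?_, h, ?_⟩, ?_⟩
    · have := h0.tt
      rw [← this]; simp only [ip, Complex.neg_re, Complex.neg_im]; ring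
    · have := h0.tn
      simp only [ip, Complex.neg_re, Complex.neg_im] at *
      linarith
    · simp only [ip, Complex.neg_re, Complex.neg_im] at *
      linarith

/-- small moves stay in the polygon -/
theorem small_move (X : Finset HP) {x w : ℂ} (hx : x ∈ Cl X)
    (hw : ∀ s ∈ X, ip s.1 x = s.2 → ip s.1 w ≤ 0) :
    ∃ ε : ℝ, 0 < ε ∧ x + (ε : ℂ) * w ∈ Cl X := by
  have h : ∀ᶠ ε : ℝ in 𝓝[>] 0, ∀ s ∈ X, ip s.1 (x + (ε : ℂ) * w) ≤ s.2 := by
    rw [Filter.eventually_all_finset]
    intro s hs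
    rcases eq_or_lt_of_le (hx s hs) with h | h
    · filter_upwards [self_mem_nhdsWithin] with ε hε
      rw [ip_add', ip_rm, h]
      have := hw s hs h
      have h2 : (0 : ℝ) < ε := hε
      nlinarith
    · have hc : Continuous fun ε : ℝ => ip s.1 (x + (ε : ℂ) * w) := by
        simp only [ip_add', ip_rm]
        fun_prop
      have h3 : ∀ᶠ ε : ℝ in 𝓝 0, ip s.1 (x + (ε : ℂ) * w) < s.2 := by
        refine hc.continuousAt.eventually (Iio_mem_nhds ?_)
        show ip s.1 (x + ((0 : ℝ) : ℂ) * w) < s.2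
        rw [ip_add', ip_rm]
        linarith
      filter_upwards [nhdsWithin_le_nhds h3] with ε hε using hε.le
  have h2 := h.and self_mem_nhdsWithin
  obtain ⟨ε, h3, h4⟩ := h2.exists
  exact ⟨ε, h4, h3⟩

/-- END, without orientation -/
theorem end' {X : Finset HP} (E2 : ∀ (e e' : HP) (z : ℂ), VxOf X e e' z →
    ∃ (t : HP) (y : ℂ) (r : ℝ), VxOf X e t y ∧ t ≠ e' ∧
    0 < r ∧ ((0 < dt e.1 e'.1 ∧ z - y = (r : ℂ) * (I * e.1)) ∨
      (dt e.1 e'.1 < 0 ∧ y - z = (r : ℂ) * (I * e.1)))) {e e' : HP} {z : ℂ}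
    (h : VxOf X e e' z) : ∃ (t : HP) (y : ℂ), VxOf X e t y ∧ t ≠ e' ∧
      ip e.1 (y - z) = 0 ∧ ip e'.1 (y - z) < 0 := by
  obtain ⟨t, y, r, h1, h2, h3, h4⟩ := E2 e e' z h
  refine ⟨t, y, h1, h2, ?_⟩
  rcases h4 with ⟨h5, h6⟩ | ⟨h5, h6⟩
  · have e1 : y - z = ((-r : ℝ) : ℂ) * (I * e.1) := by
      push_cast; linear_combination -h6
    rw [e1, ip_rm, ip_rm, ip_Irot, ip_Idt]
    exact ⟨by ring, by nlinarith⟩
  · rw [h6, ip_rm, ip_rm, ip_Irot, ip_Idt]
    exact ⟨by ring, by nlinarith⟩

/-- the inequality of case 1 -/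
theorem L1 {c s d X1 X2 Y2 a b : ℝ} (hs : 0 < s) (hX1 : 0 < X1) (hX2 : X2 ≤ 0)
    (hY2 : 0 < Y2) (h1 : 0 < a * X1) (h2 : a * X2 + b * Y2 = a * X1) (h3 : b * d ≤ a * X1)
    (J1 : c * X1 + s * (0 - d) ≤ 0) (J2 : c * X2 + s * (Y2 - d) ≤ 0) : b * d = a * X1 := by
  have ha : 0 < a := by
    by_contra h
    nlinarith
  have hb : 0 < b := by
    have : 0 < b * Y2 := by nlinarith
    by_contra h
    nlinarith
  have h4 : s * (Y2 * X1 - d * (X1 - X2)) ≤ 0 := by
    nlinarith [mul_nonneg (sub_nonneg.2 hX2) (sub_nonneg.2 J1), mul_nonneg hX1.le (sub_nonneg.2 J2)]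
  have h5 : Y2 * X1 ≤ d * (X1 - X2) := by
    by_contra h
    nlinarith
  have h6 : a * X1 * (X1 - X2) ≤ b * d * (X1 - X2) := by
    have e : a * X1 * (X1 - X2) = b * (Y2 * X1) := by linear_combination (-X1) * h2
    rw [e]
    nlinarith
  have h7 : a * X1 ≤ b * d := le_of_mul_le_mul_right h6 (by linarith)
  linarith

/-- the contradiction of case 2 -/
theorem L2 {d a b a' b' p s1 p' s2 r r' : ℝ} (hd : 0 < d) (hab : a ^ 2 + b ^ 2 = 1)
    (hab' : a' ^ 2 + b' ^ 2 = 1) (hp : p ≤ 0) (hp' : p' ≤ 0) (hs1 : 0 < s1) (hs2 : s2 < 0)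
    (h1 : a * p + b * s1 = 0) (h2 : a' * p' + b' * s2 = 0) (ha : 0 < a) (ha' : 0 < a')
    (hr : r ^ 2 = p ^ 2 + s1 ^ 2) (hr' : r' ^ 2 = p' ^ 2 + s2 ^ 2) (hrd : d ≤ r) (hrd' : d ≤ r')
    (hle : s1 - s2 ≤ d)
    (hneg : a * a' + b * b' < 0 → r ≤ r' → d ≤ r * |a * b' - b * a'|)
    (hneg' : a * a' + b * b' < 0 → r' ≤ r → d ≤ r' * |a * b' - b * a'|) : False := by
  have hr0 : 0 < r := by linarith
  have hr0' : 0 < r' := by linarith
  have e1 : a * r = s1 := by
    have : (a * r) ^ 2 = s1 ^ 2 := by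
      have h3 : a * p = -(b * s1) := by linarith
      have : (a * r) ^ 2 = (a * p) ^ 2 + a ^ 2 * s1 ^ 2 := by rw [mul_pow, hr]; ring
      rw [this, h3]
      linear_combination s1 ^ 2 * hab
    exact (pow_left_inj₀ (by positivity) hs1.le two_ne_zero).1 this
  have e1' : a' * r' = -s2 := by
    have : (a' * r') ^ 2 = (-s2) ^ 2 := by
      have h3 : a' * p' = -(b' * s2) := by linarith
      have : (a' * r') ^ 2 = (a' * p') ^ 2 + a' ^ 2 * s2 ^ 2 := by rw [mul_pow, hr']; ring
      rw [this, h3]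
      linear_combination s2 ^ 2 * hab'
    exact (pow_left_inj₀ (by positivity) (by linarith) two_ne_zero).1 this
  have hb : 0 ≤ b := by
    have : 0 ≤ b * s1 := by nlinarith
    by_contra h
    nlinarith
  have hb' : b' ≤ 0 := by
    have : b' * s2 = -(a' * p') := by linarith
    by_contra h
    push Not at h
    nlinarith
  have h5 : a * r + a' * r' ≤ d := by rw [e1, e1']; linarith
  have h6 : a + a' ≤ 1 := by
    have : (a + a') * d ≤ d := by nlinarith
    by_contra h
    nlinarith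
  rcases le_or_gt 0 (a * a' + b * b') with h | h
  · have h7 : b * (-b') ≤ a * a' := by nlinarith
    have h8 : (b * (-b')) ^ 2 ≤ (a * a') ^ 2 := by
      apply pow_le_pow_left₀ _ h7
      exact mul_nonneg hb (by linarith)
    have h9 : (1 - a ^ 2) * (1 - a' ^ 2) ≤ a ^ 2 * a' ^ 2 := by
      have e3 : b ^ 2 = 1 - a ^ 2 := by linarith
      have e4 : b' ^ 2 = 1 - a' ^ 2 := by linarith
      rw [← e3, ← e4]
      nlinarith
    have h10 : 1 ≤ a ^ 2 + a' ^ 2 := by nlinarith
    nlinarith [mul_pos ha ha']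
  · have hb1 : b < 1 := by
      by_contra h21
      push Not at h21
      have h22 := one_le_pow₀ (n := 2) h21
      have h23 := pow_pos ha 2
      linarith
    have hb1' : -b' < 1 := by
      by_contra h21
      push Not at h21
      have h22 := one_le_pow₀ (n := 2) h21
      have h23 := pow_pos ha' 2
      rw [neg_sq] at h22
      linarith
    have q1 := mul_nonneg ha.le (neg_nonneg.2 hb')
    have q2 := mul_nonneg hb ha'.le
    have e : |a * b' - b * a'| = a * (-b') + b * a' := by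
      rw [abs_of_nonpos]
      · ring
      · linarith
    have h7 : a * (-b') + b * a' < a + a' := by
      have q3 := mul_lt_mul_of_pos_left hb1' ha
      have q4 := mul_lt_mul_of_pos_right hb1 ha'
      linarith
    rw [e] at hneg hneg'
    rcases le_total r r' with h8 | h8
    · have q5 := hneg h h8
      have q6 := mul_lt_mul_of_pos_left h7 hr0
      have q7 := mul_le_mul_of_nonneg_left h8 ha'.le
      linarith
    · have q5 := hneg' h h8
      have q6 := mul_lt_mul_of_pos_left h7 hr0'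
      have q7 := mul_le_mul_of_nonneg_left h8 ha.le
      linarith

theorem ncl (hend : EndStmt) (hsgl : SglStmt) (vxx : VxxStatement) : NclStmt := by
  intro X L hX hL hB i j q v α η hv hq hqi hqj hqv hF ha1 ha2 he1 he2 hij hjq hiq
  obtain ⟨V1, V2, V3, V4, V5, V6, -, -, V9, -, -⟩ := vxx X hX
  obtain ⟨-, E2⟩ := hend X hX
  obtain ⟨S1, S2, S3⟩ := hsgl X L hX hB
  have hunit : ∀ s ∈ X, ip s.1 s.1 = 1 := fun s hs => by
    rw [ip_self_norm, hX.unit s hs]; norm_num
  have hc : 0 < Real.cos η :=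
    Real.cos_pos_of_mem_Ioo ⟨by linarith [Real.pi_pos], by linarith⟩
  have hs : 0 < Real.sin η := Real.sin_pos_of_pos_of_lt_pi he1 (by linarith [Real.pi_pos])
  have hcA : Real.cos (α - η) < 0 :=
    Real.cos_neg_of_pi_div_two_lt_of_lt (by linarith) (by linarith [Real.pi_pos])
  have hsA : 0 < Real.sin (α - η) :=
    Real.sin_pos_of_pos_of_lt_pi (by linarith [Real.pi_pos]) (by linarith)
  obtain ⟨τ, hfr, hτj⟩ := Fr.exists (hunit q hq) (hunit j hv.mem₂) (c := Real.cos η)
    (by rw [hjq]; nlinarith [Real.sin_sq_add_cos_sq η])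
  set F : ℂ := v + ((L / 2 : ℝ) : ℂ) * q.1 with hFdef
  obtain ⟨d, hd⟩ : ∃ d : ℝ, d = L / 2 := ⟨_, rfl⟩
  have hd0 : 0 < d := by rw [hd]; positivity
  rw [← hd] at hqv hFdef
  have hFq : ip q.1 F = q.2 := by
    rw [hFdef, ip_add', ip_rm, hunit q hq, hqv]; ring
  obtain ⟨xc, hxc⟩ : ∃ f : ℂ → ℝ, ∀ x, f x = ip τ (x - F) := ⟨_, fun _ => rfl⟩
  obtain ⟨yc, hyc⟩ : ∃ f : ℂ → ℝ, ∀ x, f x = -ip q.1 (x - F) := ⟨_, fun _ => rfl⟩
  have hco : ∀ s x : ℂ, ip s x = ip s F + ip τ s * xc x + (-ip q.1 s) * yc x := by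
    intro s x
    have h := hfr.pars s (x - F)
    rw [ip_sub' s, ← hxc] at h
    rw [hyc]
    linarith
  have hyq : ∀ x, yc x = q.2 - ip q.1 x := fun x => by
    rw [hyc, ip_sub', hFq]; ring
  have hdf : ∀ s x y : ℂ, ip s (y - x) =
      ip τ s * (xc y - xc x) + (-ip q.1 s) * (yc y - yc x) := by
    intro s x y
    rw [ip_sub', hco s y, hco s x]; ring
  have htau : ∀ x y : ℂ, ip τ (y - x) = xc y - xc x := by
    intro x y
    rw [hxc, hxc, ip_sub', ip_sub', ip_sub']; ring
  have hnu : ∀ x y : ℂ, ip q.1 (y - x) = -(yc y - yc x) := by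
    intro x y
    rw [hyc, hyc, ip_sub', ip_sub', ip_sub']; ring
  have hnorm : ∀ x y : ℂ, ‖y - x‖ ^ 2 = (xc y - xc x) ^ 2 + (yc y - yc x) ^ 2 := by
    intro x y
    rw [hfr.norm, htau, hnu, neg_sq]
  have hxF : xc F = 0 := by rw [hxc, sub_self]; simp [ip]
  have hyF : yc F = 0 := by rw [hyc, sub_self]; simp [ip]
  have hxv : xc v = 0 := by
    have e : v - F = ((-d : ℝ) : ℂ) * q.1 := by rw [hFdef]; push_cast; ring
    rw [hxc, e, ip_rm, hfr.tn, mul_zero]
  have hyv : yc v = d := by rw [hyq, hqv]; ring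
  have hqj' : -ip q.1 j.1 = Real.sin η := by rw [ip_comm', hjq, neg_neg]
  have hqi' : -ip q.1 i.1 = Real.sin (α - η) := by rw [ip_comm', hiq, neg_neg]
  have hτi : ip τ i.1 = -Real.cos (α - η) := by
    have h := hfr.pars i.1 j.1
    rw [hij, hτj] at h
    have e : Real.cos α = Real.cos (α - η) * Real.cos η - Real.sin (α - η) * Real.sin η := by
      rw [← Real.cos_add]; congr 1; ring
    have h3 : (ip τ i.1 + Real.cos (α - η)) * Real.cos η = 0 := by
      have h4 : ip q.1 i.1 * ip q.1 j.1 = Real.sin (α - η) * Real.sin η := by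
        rw [← hqi', ← hqj']; ring
      rw [h4, e] at h
      linarith
    rcases mul_eq_zero.1 h3 with h5 | h5
    · linarith
    · exact absurd h5 hc.ne'
  have hFcl : F ∈ Cl X := by
    intro s hs'
    rcases eq_or_ne s q with h | h
    · rw [h, hFq]
    · exact (hF s hs' h).le
  have hJ : ∀ x ∈ Cl X, Real.cos η * xc x + Real.sin η * (yc x - d) ≤ 0 := by
    intro x hx
    have h1 := hx j hv.mem₂
    have h2 := hv.on₂
    rw [hco j.1 x] at h1
    rw [hco j.1 v, hxv, hyv] at h2
    rw [hτj, hqj'] at h1 h2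
    linarith
  by_cases hex : ∃ w, VxOf X j q w
  · obtain ⟨w, hw⟩ := hex
    refine ⟨w, hw, ?_⟩
    have h1 : yc w = 0 := by rw [hyq, hw.on₂, sub_self]
    have h2 : Real.cos η * xc w = Real.sin η * d := by
      have h3 := hw.on₁
      have h4 := hv.on₂
      rw [hco j.1 w] at h3
      rw [hco j.1 v, hxv, hyv] at h4
      rw [hτj, hqj'] at h3 h4
      rw [h1] at h3
      linarith
    have h3 := hnorm w v
    rw [hxv, hyv, h1] at h3
    have h4 : (‖v - w‖ * Real.cos η) ^ 2 = d ^ 2 := by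
      rw [mul_pow, h3]
      have e : ((0 - xc w) ^ 2 + (d - 0) ^ 2) * Real.cos η ^ 2
          = (Real.cos η * xc w) ^ 2 + d ^ 2 * Real.cos η ^ 2 := by ring
      rw [e, h2]
      linear_combination d ^ 2 * Real.sin_sq_add_cos_sq η
    have h5 := (pow_left_inj₀ (by positivity) hd0.le two_ne_zero).1 h4
    rw [h5, hd]
  exfalso
  have hcx : Continuous xc := by
    have : xc = fun x => ip τ (x - F) := funext hxc
    rw [this]; unfold ip; fun_prop
  have hcy : Continuous yc := by
    have : yc = fun x => -ip q.1 (x - F) := funext hyc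
    rw [this]; unfold ip; fun_prop
  obtain ⟨x0, hx0, hmax⟩ := V9.exists_isMaxOn ⟨F, hFcl⟩ hcx.continuousOn
  have hK : IsCompact (Cl X ∩ {x | xc x = xc x0}) :=
    V9.inter_right (isClosed_eq hcx continuous_const)
  obtain ⟨x1, ⟨hx1, hx1'⟩, hmin⟩ := hK.exists_isMinOn ⟨x0, hx0, rfl⟩ hcy.continuousOn
  have hx1'' : xc x1 = xc x0 := hx1'
  have hM : ∀ x ∈ Cl X, xc x ≤ xc x1 := fun x hx => by
    rw [hx1'']; exact hmax hx
  have hm : ∀ x ∈ Cl X, xc x = xc x1 → yc x1 ≤ yc x := fun x hx h =>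
    hmin ⟨hx, h.trans hx1''⟩
  have hmv : ∀ w : ℂ, (∀ s ∈ X, ip s.1 x1 = s.2 → ip s.1 w ≤ 0) →
      ip τ w ≤ 0 ∧ (ip τ w = 0 → ip q.1 w ≤ 0) := by
    intro w hw
    obtain ⟨ε, hε, hcl⟩ := small_move X hx1 hw
    have e1 : xc (x1 + (ε : ℂ) * w) = xc x1 + ε * ip τ w := by
      have := htau x1 (x1 + (ε : ℂ) * w)
      rw [add_sub_cancel_left, ip_rm] at this
      linarith
    have e2 : yc (x1 + (ε : ℂ) * w) = yc x1 - ε * ip q.1 w := by
      have := hnu x1 (x1 + (ε : ℂ) * w)
      rw [add_sub_cancel_left, ip_rm] at this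
      linarith
    constructor
    · have := hM _ hcl
      rw [e1] at this
      by_contra h
      push Not at h
      have := mul_pos hε h
      linarith
    · intro h0
      have := hm _ hcl (by rw [e1, h0]; ring)
      rw [e2] at this
      by_contra h
      push Not at h
      have := mul_pos hε h
      linarith
  have hX1 : 0 < xc x1 := by
    obtain ⟨ε, hε, hcl⟩ := small_move X (x := F) (w := τ) hFcl (by
      intro s hs' hact
      have : s = q := by
        by_contra h
        have := hF s hs' h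
        linarith
      rw [this, ip_comm', hfr.tn])
    have e1 : xc (F + (ε : ℂ) * τ) = ε := by
      have := htau F (F + (ε : ℂ) * τ)
      rw [add_sub_cancel_left, ip_rm, hfr.tt] at this
      linarith
    have := hM _ hcl
    rw [e1] at this
    linarith
  have hvx : Vx X x1 := by
    by_contra hnv
    by_cases hact : ∃ s ∈ X, ip s.1 x1 = s.2
    · obtain ⟨s, hsX, hs'⟩ := hact
      have h1 := V6 x1 hx1 s hsX hs' hnv
      have h2 : ∀ w : ℂ, ip s.1 w ≤ 0 → ip τ w ≤ 0 ∧ (ip τ w = 0 → ip q.1 w ≤ 0) := by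
        intro w hw
        apply hmv
        intro t ht hta
        rcases eq_or_ne t s with h | h
        · rw [h]; exact hw
        · have := h1 t ht h
          linarith
      have h3 := h2 (I * s.1) (by rw [ip_Irot])
      have h4 := h2 (((-1 : ℝ) : ℂ) * (I * s.1)) (by rw [ip_rm, ip_Irot]; norm_num)
      rw [ip_rm, ip_rm] at h4
      have h5 : ip τ (I * s.1) = 0 := by linarith [h3.1, h4.1]
      have h6 := h3.2 h5
      have h7 := h4.2 (by rw [h5]; ring)
      have h8 : ip q.1 (I * s.1) = 0 := by linarith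
      have h9 := hfr.norm (I * s.1)
      rw [h5, h8, norm_mul, Complex.norm_I, hX.unit s hsX] at h9
      norm_num at h9
    · push Not at hact
      have h1 := (hmv τ (fun s hsX hs' => absurd hs' (hact s hsX))).1
      rw [hfr.tt] at h1
      linarith
  obtain ⟨e, e', hee⟩ := hvx
  have hYd : yc x1 < d := by
    have := hJ x1 hx1
    have h2 := mul_pos hc hX1
    by_contra h
    push Not at h
    have := mul_nonneg hs.le (sub_nonneg.2 h)
    linarith
  have hY0 : ∀ x ∈ Cl X, 0 ≤ yc x := fun x hx => by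
    rw [hyq]; linarith [hx q hq]
  have hsa : 0 < Real.sin (α - η) * Real.cos η + Real.cos (α - η) * Real.sin η := by
    rw [← Real.sin_add]
    have : α - η + η = α := by ring
    rw [this]
    exact Real.sin_pos_of_pos_of_lt_pi (by linarith [Real.pi_pos]) ha2
  rcases (hY0 x1 hx1).eq_or_lt with h0 | h0
  · -- case 1
    have key1 : ∀ e, VxOf X e q x1 → False := by
      intro e he
      have hej : e ≠ j := fun h => hex ⟨x1, h ▸ he⟩
      obtain ⟨t, z, hz, hzt, hz1, hz2⟩ := end' E2 he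
      have hyz : 0 < yc z := by
        rw [hnu] at hz2
        linarith
      have g1 := hz1
      rw [hdf, ← h0] at g1
      have g2 := he.on₁
      have g3 := hF e he.mem₁ he.ne
      rw [hco e.1 x1, ← h0] at g2
      have g4 := hv.cl e he.mem₁
      rw [hco e.1 v, hxv, hyv] at g4
      have J1 := hJ x1 hx1
      rw [← h0] at J1
      have J2 := hJ z hz.cl
      rcases le_or_gt (xc z) 0 with hxz | hxz
      · have g5 := L1 (a := ip τ e.1) (b := -ip q.1 e.1) hs hX1 hxz hyz (by linarith)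
          (by linarith) (by linarith) J1 J2
        have g6 : ip e.1 v = e.2 := by
          rw [hco e.1 v, hxv, hyv]; linarith
        rcases V1 i j v hv e he.mem₁ g6 with h | h
        · rw [h, hqi', hτi] at g5
          have g7 : Real.cos (α - η) * (Real.cos η * xc x1 + Real.sin η * (0 - d)) ≥ 0 :=
            mul_nonneg_of_nonpos_of_nonpos hcA.le J1
          have g8 := mul_pos hsa hd0
          have g9 : Real.sin (α - η) * d * Real.cos η
              = -Real.cos (α - η) * xc x1 * Real.cos η := by rw [g5]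
          linarith
        · exact hej h
      · have g5 : z + ((q.2 - ip q.1 z : ℝ) : ℂ) * q.1 ∈ Cl X := by
          intro s hsX
          rw [ip_add', ip_rm, ← hyq, hco s.1 z]
          have g6 := hFcl s hsX
          have g7 := hx1 s hsX
          rw [hco s.1 x1, ← h0] at g7
          have g8 := hM z hz.cl
          have e5 : ip s.1 q.1 = ip q.1 s.1 := ip_comm' _ _
          rw [e5]
          rcases le_or_gt (ip τ s.1) 0 with h | h
          · have := mul_nonneg_of_nonpos_of_nonpos h (neg_nonpos.2 hxz.le)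
            linarith
          · have := mul_le_mul_of_nonneg_left g8 h.le
            linarith
        have g6 := S3 e t q z hz hq he.ne.symm hzt.symm g5
        rw [← hyq] at g6
        have g7 := mul_pos hc hxz
        have g8 := mul_nonneg hs.le (show 0 ≤ yc z - d by linarith)
        linarith
    have hqa : ip q.1 x1 = q.2 := by
      have := hyq x1
      linarith
    rcases V1 e e' x1 hee q hq hqa with h | h
    · subst h
      exact key1 e' (V5 _ _ _ hee).2.1
    · subst h
      exact key1 e hee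
  · -- case 2
    have key2 : ∀ (e e' t t' : HP) (y y' : ℂ), VxOf X e e' x1 → VxOf X e t y → t ≠ e' →
        ip e.1 (y - x1) = 0 → ip e'.1 (y - x1) < 0 → VxOf X e' t' y' → t' ≠ e →
        ip e'.1 (y' - x1) = 0 → ip e.1 (y' - x1) < 0 → 0 < yc y - yc x1 →
        yc y' - yc x1 < 0 → False := by
      intro e e' t t' y y' hee hy hte g1 g2 hy' hte' g3 g4 hs1 hs2
      rw [hdf] at g1 g2 g3 g4
      have hp : xc y - xc x1 ≤ 0 := by linarith [hM y hy.cl]
      have hp' : xc y' - xc x1 ≤ 0 := by linarith [hM y' hy'.cl]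
      have hsy : VxOf X e' e x1 := (V5 _ _ _ hee).2.1
      obtain ⟨a, ha⟩ : ∃ a, a = ip τ e.1 := ⟨_, rfl⟩
      obtain ⟨a', ha'⟩ : ∃ a, a = ip τ e'.1 := ⟨_, rfl⟩
      obtain ⟨b, hb⟩ : ∃ a, a = -ip q.1 e.1 := ⟨_, rfl⟩
      obtain ⟨b', hb'⟩ : ∃ a, a = -ip q.1 e'.1 := ⟨_, rfl⟩
      obtain ⟨p, hpd⟩ : ∃ a, a = xc y - xc x1 := ⟨_, rfl⟩
      obtain ⟨p', hpd'⟩ : ∃ a, a = xc y' - xc x1 := ⟨_, rfl⟩
      obtain ⟨s1, hsd⟩ : ∃ a, a = yc y - yc x1 := ⟨_, rfl⟩
      obtain ⟨s2, hsd'⟩ : ∃ a, a = yc y' - yc x1 := ⟨_, rfl⟩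
      rw [← ha, ← hb, ← hpd, ← hsd] at g1
      rw [← ha', ← hb', ← hpd, ← hsd] at g2
      rw [← ha', ← hb', ← hpd', ← hsd'] at g3
      rw [← ha, ← hb, ← hpd', ← hsd'] at g4
      rw [← hpd] at hp
      rw [← hpd'] at hp'
      rw [← hsd] at hs1
      rw [← hsd'] at hs2
      have k1 := mul_nonneg (neg_nonneg.2 hp') hs1.le
      have k2 := mul_nonneg (neg_nonneg.2 hp) (neg_nonneg.2 hs2.le)
      have hapos : 0 < a := by
        by_contra h
        push Not at h
        have k3 := mul_pos hs1 (neg_pos.2 g4)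
        have k4 := mul_nonneg (neg_nonneg.2 h) (add_nonneg k1 k2)
        have k5 : s1 * (-(a * p' + b * s2)) = -(-a * (-p' * s1 + -p * -s2)) := by
          linear_combination (-s2) * g1
        linarith
      have hapos' : 0 < a' := by
        by_contra h
        push Not at h
        have k3 := mul_pos (neg_pos.2 hs2) (neg_pos.2 g2)
        have k4 := mul_nonneg (neg_nonneg.2 h) (add_nonneg k1 k2)
        have k5 : (-s2) * (-(a' * p + b' * s1)) = -(-a' * (-p' * s1 + -p * -s2)) := by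
          linear_combination s1 * g3
        linarith
      have hab : a ^ 2 + b ^ 2 = 1 := by
        rw [ha, hb, neg_sq, ← hfr.norm, hX.unit e hee.mem₁]; norm_num
      have hab' : a' ^ 2 + b' ^ 2 = 1 := by
        rw [ha', hb', neg_sq, ← hfr.norm, hX.unit e' hee.mem₂]; norm_num
      have hyd : yc y ≤ d := by
        by_contra hgt
        push Not at hgt
        obtain ⟨θ, hθ⟩ : ∃ θ, θ = (d - yc x1) / s1 := ⟨_, rfl⟩
        have hθ0 : 0 < θ := by rw [hθ]; exact div_pos (by linarith) hs1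
        have hθ1 : θ < 1 := by rw [hθ, div_lt_one hs1]; linarith
        have hθs : θ * s1 = d - yc x1 := by rw [hθ]; field_simp
        have J1 := hJ x1 hx1
        have J2 := hJ y hy.cl
        have k3 := mul_nonneg (sub_nonneg.2 hθ1.le) (neg_nonneg.2 J1)
        have k4 := mul_nonneg hθ0.le (neg_nonneg.2 J2)
        have k5 : Real.cos η * (xc x1 + θ * p) ≤ 0 := by
          have e1 : (1 - θ) * -(Real.cos η * xc x1 + Real.sin η * (yc x1 - d))
              + θ * -(Real.cos η * xc y + Real.sin η * (yc y - d))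
              = -(Real.cos η * (xc x1 + θ * p)) := by
            rw [hpd]
            rw [hsd] at hθs
            linear_combination (-Real.sin η) * hθs
          linarith
        have k6 : xc x1 + θ * p ≤ 0 := by
          by_contra h
          push Not at h
          have := mul_pos hc h
          linarith
        have k7 := hv.cl e hee.mem₁
        rw [← hee.on₁, hco e.1 v, hco e.1 x1, hxv, hyv, ← ha, ← hb] at k7
        have k8 : 0 ≤ a * (xc x1 + θ * p) := by
          have e2 : a * (xc x1 + θ * p) = a * xc x1 - b * (d - yc x1) := by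
            rw [← hθs]; linear_combination θ * g1
          rw [e2]; linarith
        have k9 : 0 ≤ xc x1 + θ * p := by
          by_contra h
          push Not at h
          have := mul_neg_of_pos_of_neg hapos h
          linarith
        have k10 : xc x1 + θ * p = 0 := le_antisymm k6 k9
        have k11 : v ∈ openSegment ℝ x1 y := by
          refine ⟨1 - θ, θ, by linarith, hθ0, by ring, ?_⟩
          have e3 : (1 - θ) • x1 + θ • y = x1 + (θ : ℂ) * (y - x1) := by
            simp only [Complex.real_smul]; push_cast; ring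
          rw [e3]
          have e4 : xc (x1 + (θ : ℂ) * (y - x1)) = xc x1 + θ * p := by
            have := htau x1 (x1 + (θ : ℂ) * (y - x1))
            rw [add_sub_cancel_left, ip_rm, htau, ← hpd] at this
            linarith
          have e5 : yc (x1 + (θ : ℂ) * (y - x1)) = yc x1 + θ * s1 := by
            have := hnu x1 (x1 + (θ : ℂ) * (y - x1))
            rw [add_sub_cancel_left, ip_rm, hnu, ← hsd] at this
            linarith
          have e6 := hnorm v (x1 + (θ : ℂ) * (y - x1))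
          rw [e4, e5, k10, hxv, hyv, hθs] at e6
          have e7 : ‖x1 + (θ : ℂ) * (y - x1) - v‖ ^ 2 = 0 := by rw [e6]; ring
          have e8 := (pow_eq_zero_iff (two_ne_zero)).1 e7
          exact sub_eq_zero.1 (norm_eq_zero.1 e8)
        have k12 := (V3 v ⟨i, j, hv⟩ x1 hx1 y hy.cl k11).1
        rw [k12, hyv] at hYd
        exact lt_irrefl _ hYd
      have hyd' := hY0 y' hy'.cl
      have hr := S1 e' e t x1 y hsy hy hte.symm
      have hr' := S1 e e' t' x1 y' hee hy' hte'.symm
      have hny : y ≠ x1 := fun h => by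
        rw [h, sub_self] at hsd
        linarith
      have hny' : y' ≠ x1 := fun h => by
        rw [h, sub_self] at hsd'
        linarith
      have hip : ip e.1 e'.1 = a * a' + b * b' := by
        rw [hfr.pars, ha, ha', hb, hb']; ring
      have hip' : ip e'.1 e.1 = a * a' + b * b' := by rw [ip_comm', hip]
      have hdt : |dt e.1 e'.1| = |a * b' - b * a'| := by
        rw [hfr.absdt, ha, ha', hb, hb', ← abs_neg]
        congr 1; ring
      have hdt' : |dt e'.1 e.1| = |a * b' - b * a'| := by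
        rw [← hdt]
        rw [← abs_neg]
        congr 1
        simp only [dt]; ring
      refine L2 (d := d) (r := ‖x1 - y‖) (r' := ‖x1 - y'‖) hd0 hab hab' hp hp' hs1 hs2 g1 g3
        hapos hapos' ?_ ?_ (by rw [hd]; linarith) (by rw [hd]; linarith)
        (by rw [hsd, hsd']; linarith) ?_ ?_
      · rw [hnorm, hpd, hsd]; ring
      · rw [hnorm, hpd', hsd']; ring
      · intro h1 h2
        have h3 := S2 e e' t t' x1 y y' hee hy hte hy' hte' hny hny' (by rw [hip]; exact h1) h2
        rw [hdt] at h3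
        rw [hd]; linarith
      · intro h1 h2
        have h3 := S2 e' e t' t x1 y' y hsy hy' hte' hy hte hny' hny (by rw [hip']; exact h1) h2
        rw [hdt'] at h3
        rw [hd]; linarith
    obtain ⟨t, y, hy, hte, g1, g2⟩ := end' E2 hee
    have hsy : VxOf X e' e x1 := (V5 _ _ _ hee).2.1
    obtain ⟨t', y', hy', hte', g3, g4⟩ := end' E2 hsy
    have hΔ : ip τ e.1 * (-ip q.1 e'.1) - (-ip q.1 e.1) * ip τ e'.1 ≠ 0 := by
      intro h
      have h1 := (V5 _ _ _ hee).2.2
      have h2 := hfr.absdt e.1 e'.1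
      have h3 : ip τ e.1 * ip q.1 e'.1 - ip q.1 e.1 * ip τ e'.1 = 0 := by linarith
      rw [h3, abs_zero, abs_eq_zero] at h2
      exact h1 h2
    have hcone : ∀ w ∈ Cl X, ∃ l m : ℝ, 0 ≤ l ∧ 0 ≤ m ∧
        yc w - yc x1 = l * (yc y - yc x1) + m * (yc y' - yc x1) := by
      intro w hw
      have w1 : ip e.1 (w - x1) ≤ 0 := by
        rw [ip_sub', hee.on₁]; linarith [hw e hee.mem₁]
      have w2 : ip e'.1 (w - x1) ≤ 0 := by
        rw [ip_sub', hee.on₂]; linarith [hw e' hee.mem₂]
      refine ⟨ip e'.1 (w - x1) / ip e'.1 (y - x1), ip e.1 (w - x1) / ip e.1 (y' - x1),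
        div_nonneg_of_nonpos w2 g2.le, div_nonneg_of_nonpos w1 g4.le, ?_⟩
      obtain ⟨l, hl⟩ : ∃ l, l = ip e'.1 (w - x1) / ip e'.1 (y - x1) := ⟨_, rfl⟩
      obtain ⟨m, hm'⟩ : ∃ l, l = ip e.1 (w - x1) / ip e.1 (y' - x1) := ⟨_, rfl⟩
      rw [← hl, ← hm']
      have l1 : l * ip e'.1 (y - x1) = ip e'.1 (w - x1) := by
        rw [hl, div_mul_cancel₀ _ g2.ne]
      have m1 : m * ip e.1 (y' - x1) = ip e.1 (w - x1) := by
        rw [hm', div_mul_cancel₀ _ g4.ne]
      rw [hdf] at l1 m1 g1 g3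
      rw [hdf e'.1 x1 w] at l1
      rw [hdf e.1 x1 w] at m1
      have h5 : (ip τ e.1 * (-ip q.1 e'.1) - (-ip q.1 e.1) * ip τ e'.1) *
          ((yc w - yc x1) - (l * (yc y - yc x1) + m * (yc y' - yc x1))) = 0 := by
        linear_combination (-ip τ e.1) * l1 + (ip τ e'.1) * m1
          + (ip τ e'.1 * l) * g1 - (ip τ e.1 * m) * g3
      rcases mul_eq_zero.1 h5 with h6 | h6
      · exact absurd h6 hΔ
      · linarith
    obtain ⟨l, m, hl, hm', hlm⟩ := hcone F hFcl
    obtain ⟨l', m', hl', hm'', hlm'⟩ := hcone v hv.cl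
    rw [hyF] at hlm
    rw [hyv] at hlm'
    rcases le_or_gt (yc y - yc x1) 0 with h1 | h1
    · have h2 : 0 < yc y' - yc x1 := by
        by_contra h
        push Not at h
        have n1 := mul_nonneg hl' (neg_nonneg.2 h1)
        have n2 := mul_nonneg hm'' (neg_nonneg.2 h)
        linarith
      have h3 : yc y - yc x1 < 0 := by
        by_contra h
        push Not at h
        have n1 := mul_nonneg hl h
        have n2 := mul_nonneg hm' h2.le
        linarith
      exact key2 e' e t' t y' y hsy hy' hte' g3 g4 hy hte g1 g2 h2 h3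
    · have h3 : yc y' - yc x1 < 0 := by
        by_contra h
        push Not at h
        have n1 := mul_nonneg hl h1.le
        have n2 := mul_nonneg hm' h
        linarith
      exact key2 e e' t t' y y' hee hy hte g1 g2 hy' hte' g3 g4 h1 h3

end Pool.Agent.QUD.H89
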