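import Pool.Agent.QUD.StmtsY
import Pool.Agent.Helper89_QUD.NCL

/-!
# Squad QUD (MP_5b0138_an), row NCK: no corner is cut off (larger range of the angle)
-/

set_option autoImplicit false

namespace Pool.Agent.QUD.H89

open Complex Filter Topology Pool.Agent.H62T
open Pool.Agent.AEU Pool.Agent.XQ

theorem nck (hend : EndStmt) (hsgl : SglStmt) (vxx : VxxStatement) : NckStmt := by
  intro X L hX hL hB i j q v α η hv hq hqi hqj hqv hF ha1 ha2 he1 he2 he3 hij hjq hiq
  obtain ⟨V1, V2, V3, V4, V5, V6, -, -, V9, -, -⟩ := vxx X hX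
  obtain ⟨-, E2⟩ := hend X hX
  obtain ⟨S1, S2, S3⟩ := hsgl X L hX hB
  have hunit : ∀ s ∈ X, ip s.1 s.1 = 1 := fun s hs => by
    rw [ip_self_norm, hX.unit s hs]; norm_num
  have hc : 0 < Real.cos η :=
    Real.cos_pos_of_mem_Ioo ⟨by linarith [Real.pi_pos], by linarith⟩
  have hs : 0 < Real.sin η := Real.sin_pos_of_pos_of_lt_pi he1 (by linarith [Real.pi_pos])
  have hsA : 0 < Real.sin (α - η) :=
    Real.sin_pos_of_pos_of_lt_pi (by linarith [Real.pi_pos]) (by linarith)
  obtain ⟨τ, hfr, hτj⟩ := Fr.exists (hunit q hq) (hunit j hv.mem₂) (c := Real.cos η)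
    (by rw [hjq]; nlinarith [Real.sin_sq_add_cos_sq η])
  set F : ℂ := v + ((L / 2 : ℝ) : ℂ) * q.1 with hFdef
  obtain ⟨d, hd⟩ : ∃ d : ℝ, d = L / 2 := ⟨_, rfl⟩
  have hd0 : 0 < d := by rw [hd]; positivity
  rw [← hd] at hqv hFdef
  have hFq : ip q.1 F = q.2 := by
    rw [hFdef, ip_add', ip_rm, hunit q hq, hqv]; ring
  obtain ⟨xc, hxc⟩ : ∃ f : ℂ → ℝ, ∀ x, f x = ip τ (x - F) := ⟨_, fun _ => rfl⟩
  obtain ⟨yc, hyc⟩ : ∃ f : ℂ → ℝ, ∀ x, f x = -ip q.1 (x - F) := ⟨_, fun _ => rfl⟩
  have hco : ∀ s x : ℂ, ip s x = ip s F + ip τ s * xc x + (-ip q.1 s) * yc x := by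
    intro s x
    have h := hfr.pars s (x - F)
    rw [ip_sub' s, ← hxc] at h
    rw [hyc]
    linarith
  have hyq : ∀ x, yc x = q.2 - ip q.1 x := fun x => by
    rw [hyc, ip_sub', hFq]; ring
  have hdf : ∀ s x y : ℂ, ip s (y - x) =
      ip τ s * (xc y - xc x) + (-ip q.1 s) * (yc y - yc x) := by
    intro s x y
    rw [ip_sub', hco s y, hco s x]; ring
  have htau : ∀ x y : ℂ, ip τ (y - x) = xc y - xc x := by
    intro x y
    rw [hxc, hxc, ip_sub', ip_sub', ip_sub']; ring
  have hnu : ∀ x y : ℂ, ip q.1 (y - x) = -(yc y - yc x) := by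
    intro x y
    rw [hyc, hyc, ip_sub', ip_sub', ip_sub']; ring
  have hnorm : ∀ x y : ℂ, ‖y - x‖ ^ 2 = (xc y - xc x) ^ 2 + (yc y - yc x) ^ 2 := by
    intro x y
    rw [hfr.norm, htau, hnu, neg_sq]
  have hxF : xc F = 0 := by rw [hxc, sub_self]; simp [ip]
  have hyF : yc F = 0 := by rw [hyc, sub_self]; simp [ip]
  have hxv : xc v = 0 := by
    have e : v - F = ((-d : ℝ) : ℂ) * q.1 := by rw [hFdef]; push_cast; ring
    rw [hxc, e, ip_rm, hfr.tn, mul_zero]
  have hyv : yc v = d := by rw [hyq, hqv]; ring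
  have hqj' : -ip q.1 j.1 = Real.sin η := by rw [ip_comm', hjq, neg_neg]
  have hqi' : -ip q.1 i.1 = Real.sin (α - η) := by rw [ip_comm', hiq, neg_neg]
  have hτi : ip τ i.1 = -Real.cos (α - η) := by
    have h := hfr.pars i.1 j.1
    rw [hij, hτj] at h
    have e : Real.cos α = Real.cos (α - η) * Real.cos η - Real.sin (α - η) * Real.sin η := by
      rw [← Real.cos_add]; congr 1; ring
    have h3 : (ip τ i.1 + Real.cos (α - η)) * Real.cos η = 0 := by
      have h4 : ip q.1 i.1 * ip q.1 j.1 = Real.sin (α - η) * Real.sin η := by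
        rw [← hqi', ← hqj']; ring
      rw [h4, e] at h
      linarith
    rcases mul_eq_zero.1 h3 with h5 | h5
    · linarith
    · exact absurd h5 hc.ne'
  have hFcl : F ∈ Cl X := by
    intro s hs'
    rcases eq_or_ne s q with h | h
    · rw [h, hFq]
    · exact (hF s hs' h).le
  have hJ : ∀ x ∈ Cl X, Real.cos η * xc x + Real.sin η * (yc x - d) ≤ 0 := by
    intro x hx
    have h1 := hx j hv.mem₂
    have h2 := hv.on₂
    rw [hco j.1 x] at h1
    rw [hco j.1 v, hxv, hyv] at h2
    rw [hτj, hqj'] at h1 h2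
    linarith
  by_cases hex : ∃ w, VxOf X j q w
  · obtain ⟨w, hw⟩ := hex
    refine ⟨w, hw, ?_⟩
    have h1 : yc w = 0 := by rw [hyq, hw.on₂, sub_self]
    have h2 : Real.cos η * xc w = Real.sin η * d := by
      have h3 := hw.on₁
      have h4 := hv.on₂
      rw [hco j.1 w] at h3
      rw [hco j.1 v, hxv, hyv] at h4
      rw [hτj, hqj'] at h3 h4
      rw [h1] at h3
      linarith
    have h3 := hnorm w v
    rw [hxv, hyv, h1] at h3
    have h4 : (‖v - w‖ * Real.cos η) ^ 2 = d ^ 2 := by
      rw [mul_pow, h3]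
      have e : ((0 - xc w) ^ 2 + (d - 0) ^ 2) * Real.cos η ^ 2
          = (Real.cos η * xc w) ^ 2 + d ^ 2 * Real.cos η ^ 2 := by ring
      rw [e, h2]
      linear_combination d ^ 2 * Real.sin_sq_add_cos_sq η
    have h5 := (pow_left_inj₀ (by positivity) hd0.le two_ne_zero).1 h4
    rw [h5, hd]
  exfalso
  have hcx : Continuous xc := by
    have : xc = fun x => ip τ (x - F) := funext hxc
    rw [this]; unfold ip; fun_prop
  have hcy : Continuous yc := by
    have : yc = fun x => -ip q.1 (x - F) := funext hyc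
    rw [this]; unfold ip; fun_prop
  obtain ⟨x0, hx0, hmax⟩ := V9.exists_isMaxOn ⟨F, hFcl⟩ hcx.continuousOn
  have hK : IsCompact (Cl X ∩ {x | xc x = xc x0}) :=
    V9.inter_right (isClosed_eq hcx continuous_const)
  obtain ⟨x1, ⟨hx1, hx1'⟩, hmin⟩ := hK.exists_isMinOn ⟨x0, hx0, rfl⟩ hcy.continuousOn
  have hx1'' : xc x1 = xc x0 := hx1'
  have hM : ∀ x ∈ Cl X, xc x ≤ xc x1 := fun x hx => by
    rw [hx1'']; exact hmax hx
  have hm : ∀ x ∈ Cl X, xc x = xc x1 → yc x1 ≤ yc x := fun x hx h =>
    hmin ⟨hx, h.trans hx1''⟩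
  have hmv : ∀ w : ℂ, (∀ s ∈ X, ip s.1 x1 = s.2 → ip s.1 w ≤ 0) →
      ip τ w ≤ 0 ∧ (ip τ w = 0 → ip q.1 w ≤ 0) := by
    intro w hw
    obtain ⟨ε, hε, hcl⟩ := small_move X hx1 hw
    have e1 : xc (x1 + (ε : ℂ) * w) = xc x1 + ε * ip τ w := by
      have := htau x1 (x1 + (ε : ℂ) * w)
      rw [add_sub_cancel_left, ip_rm] at this
      linarith
    have e2 : yc (x1 + (ε : ℂ) * w) = yc x1 - ε * ip q.1 w := by
      have := hnu x1 (x1 + (ε : ℂ) * w)
      rw [add_sub_cancel_left, ip_rm] at this
      linarith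
    constructor
    · have := hM _ hcl
      rw [e1] at this
      by_contra h
      push Not at h
      have := mul_pos hε h
      linarith
    · intro h0
      have := hm _ hcl (by rw [e1, h0]; ring)
      rw [e2] at this
      by_contra h
      push Not at h
      have := mul_pos hε h
      linarith
  have hX1 : 0 < xc x1 := by
    obtain ⟨ε, hε, hcl⟩ := small_move X (x := F) (w := τ) hFcl (by
      intro s hs' hact
      have : s = q := by
        by_contra h
        have := hF s hs' h
        linarith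
      rw [this, ip_comm', hfr.tn])
    have e1 : xc (F + (ε : ℂ) * τ) = ε := by
      have := htau F (F + (ε : ℂ) * τ)
      rw [add_sub_cancel_left, ip_rm, hfr.tt] at this
      linarith
    have := hM _ hcl
    rw [e1] at this
    linarith
  have hvx : Vx X x1 := by
    by_contra hnv
    by_cases hact : ∃ s ∈ X, ip s.1 x1 = s.2
    · obtain ⟨s, hsX, hs'⟩ := hact
      have h1 := V6 x1 hx1 s hsX hs' hnv
      have h2 : ∀ w : ℂ, ip s.1 w ≤ 0 → ip τ w ≤ 0 ∧ (ip τ w = 0 → ip q.1 w ≤ 0) := by
        intro w hw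
        apply hmv
        intro t ht hta
        rcases eq_or_ne t s with h | h
        · rw [h]; exact hw
        · have := h1 t ht h
          linarith
      have h3 := h2 (I * s.1) (by rw [ip_Irot])
      have h4 := h2 (((-1 : ℝ) : ℂ) * (I * s.1)) (by rw [ip_rm, ip_Irot]; norm_num)
      rw [ip_rm, ip_rm] at h4
      have h5 : ip τ (I * s.1) = 0 := by linarith [h3.1, h4.1]
      have h6 := h3.2 h5
      have h7 := h4.2 (by rw [h5]; ring)
      have h8 : ip q.1 (I * s.1) = 0 := by linarith
      have h9 := hfr.norm (I * s.1)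
      rw [h5, h8, norm_mul, Complex.norm_I, hX.unit s hsX] at h9
      norm_num at h9
    · push Not at hact
      have h1 := (hmv τ (fun s hsX hs' => absurd hs' (hact s hsX))).1
      rw [hfr.tt] at h1
      linarith
  obtain ⟨e, e', hee⟩ := hvx
  have hYd : yc x1 < d := by
    have := hJ x1 hx1
    have h2 := mul_pos hc hX1
    by_contra h
    push Not at h
    have := mul_nonneg hs.le (sub_nonneg.2 h)
    linarith
  have hY0 : ∀ x ∈ Cl X, 0 ≤ yc x := fun x hx => by
    rw [hyq]; linarith [hx q hq]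
  have hsa : 0 < Real.sin (α - η) * Real.cos η + Real.cos (α - η) * Real.sin η := by
    rw [← Real.sin_add]
    have : α - η + η = α := by ring
    rw [this]
    exact Real.sin_pos_of_pos_of_lt_pi (by linarith [Real.pi_pos]) ha2
  rcases (hY0 x1 hx1).eq_or_lt with h0 | h0
  · -- case 1
    have key1 : ∀ e, VxOf X e q x1 → False := by
      intro e he
      have hej : e ≠ j := fun h => hex ⟨x1, h ▸ he⟩
      obtain ⟨t, z, hz, hzt, hz1, hz2⟩ := end' E2 he
      have hyz : 0 < yc z := by
        rw [hnu] at hz2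
        linarith
      have g1 := hz1
      rw [hdf, ← h0] at g1
      have g2 := he.on₁
      have g3 := hF e he.mem₁ he.ne
      rw [hco e.1 x1, ← h0] at g2
      have g4 := hv.cl e he.mem₁
      rw [hco e.1 v, hxv, hyv] at g4
      have J1 := hJ x1 hx1
      rw [← h0] at J1
      have J2 := hJ z hz.cl
      rcases le_or_gt (xc z) 0 with hxz | hxz
      · have g5 := L1 (a := ip τ e.1) (b := -ip q.1 e.1) hs hX1 hxz hyz (by linarith)
          (by linarith) (by linarith) J1 J2
        have g6 : ip e.1 v = e.2 := by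
          rw [hco e.1 v, hxv, hyv]; linarith
        rcases V1 i j v hv e he.mem₁ g6 with h | h
        · rw [h, hqi', hτi] at g5
          have hcA : Real.cos (α - η) ≤ 0 := by
            by_contra h
            push Not at h
            have g71 := mul_pos h hX1
            have g72 := mul_pos hsA hd0
            linarith
          have g7 : Real.cos (α - η) * (Real.cos η * xc x1 + Real.sin η * (0 - d)) ≥ 0 :=
            mul_nonneg_of_nonpos_of_nonpos hcA J1
          have g8 := mul_pos hsa hd0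
          have g9 : Real.sin (α - η) * d * Real.cos η
              = -Real.cos (α - η) * xc x1 * Real.cos η := by rw [g5]
          linarith
        · exact hej h
      · have g5 : z + ((q.2 - ip q.1 z : ℝ) : ℂ) * q.1 ∈ Cl X := by
          intro s hsX
          rw [ip_add', ip_rm, ← hyq, hco s.1 z]
          have g6 := hFcl s hsX
          have g7 := hx1 s hsX
          rw [hco s.1 x1, ← h0] at g7
          have g8 := hM z hz.cl
          have e5 : ip s.1 q.1 = ip q.1 s.1 := ip_comm' _ _
          rw [e5]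
          rcases le_or_gt (ip τ s.1) 0 with h | h
          · have := mul_nonneg_of_nonpos_of_nonpos h (neg_nonpos.2 hxz.le)
            linarith
          · have := mul_le_mul_of_nonneg_left g8 h.le
            linarith
        have g6 := S3 e t q z hz hq he.ne.symm hzt.symm g5
        rw [← hyq] at g6
        have g7 := mul_pos hc hxz
        have g8 := mul_nonneg hs.le (show 0 ≤ yc z - d by linarith)
        linarith
    have hqa : ip q.1 x1 = q.2 := by
      have := hyq x1
      linarith
    rcases V1 e e' x1 hee q hq hqa with h | h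
    · subst h
      exact key1 e' (V5 _ _ _ hee).2.1
    · subst h
      exact key1 e hee
  · -- case 2
    have key2 : ∀ (e e' t t' : HP) (y y' : ℂ), VxOf X e e' x1 → VxOf X e t y → t ≠ e' →
        ip e.1 (y - x1) = 0 → ip e'.1 (y - x1) < 0 → VxOf X e' t' y' → t' ≠ e →
        ip e'.1 (y' - x1) = 0 → ip e.1 (y' - x1) < 0 → 0 < yc y - yc x1 →
        yc y' - yc x1 < 0 → False := by
      intro e e' t t' y y' hee hy hte g1 g2 hy' hte' g3 g4 hs1 hs2
      rw [hdf] at g1 g2 g3 g4
      have hp : xc y - xc x1 ≤ 0 := by linarith [hM y hy.cl]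
      have hp' : xc y' - xc x1 ≤ 0 := by linarith [hM y' hy'.cl]
      have hsy : VxOf X e' e x1 := (V5 _ _ _ hee).2.1
      obtain ⟨a, ha⟩ : ∃ a, a = ip τ e.1 := ⟨_, rfl⟩
      obtain ⟨a', ha'⟩ : ∃ a, a = ip τ e'.1 := ⟨_, rfl⟩
      obtain ⟨b, hb⟩ : ∃ a, a = -ip q.1 e.1 := ⟨_, rfl⟩
      obtain ⟨b', hb'⟩ : ∃ a, a = -ip q.1 e'.1 := ⟨_, rfl⟩
      obtain ⟨p, hpd⟩ : ∃ a, a = xc y - xc x1 := ⟨_, rfl⟩
      obtain ⟨p', hpd'⟩ : ∃ a, a = xc y' - xc x1 := ⟨_, rfl⟩
      obtain ⟨s1, hsd⟩ : ∃ a, a = yc y - yc x1 := ⟨_, rfl⟩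
      obtain ⟨s2, hsd'⟩ : ∃ a, a = yc y' - yc x1 := ⟨_, rfl⟩
      rw [← ha, ← hb, ← hpd, ← hsd] at g1
      rw [← ha', ← hb', ← hpd, ← hsd] at g2
      rw [← ha', ← hb', ← hpd', ← hsd'] at g3
      rw [← ha, ← hb, ← hpd', ← hsd'] at g4
      rw [← hpd] at hp
      rw [← hpd'] at hp'
      rw [← hsd] at hs1
      rw [← hsd'] at hs2
      have k1 := mul_nonneg (neg_nonneg.2 hp') hs1.le
      have k2 := mul_nonneg (neg_nonneg.2 hp) (neg_nonneg.2 hs2.le)
      have hapos : 0 < a := by
        by_contra h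
        push Not at h
        have k3 := mul_pos hs1 (neg_pos.2 g4)
        have k4 := mul_nonneg (neg_nonneg.2 h) (add_nonneg k1 k2)
        have k5 : s1 * (-(a * p' + b * s2)) = -(-a * (-p' * s1 + -p * -s2)) := by
          linear_combination (-s2) * g1
        linarith
      have hapos' : 0 < a' := by
        by_contra h
        push Not at h
        have k3 := mul_pos (neg_pos.2 hs2) (neg_pos.2 g2)
        have k4 := mul_nonneg (neg_nonneg.2 h) (add_nonneg k1 k2)
        have k5 : (-s2) * (-(a' * p + b' * s1)) = -(-a' * (-p' * s1 + -p * -s2)) := by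
          linear_combination s1 * g3
        linarith
      have hab : a ^ 2 + b ^ 2 = 1 := by
        rw [ha, hb, neg_sq, ← hfr.norm, hX.unit e hee.mem₁]; norm_num
      have hab' : a' ^ 2 + b' ^ 2 = 1 := by
        rw [ha', hb', neg_sq, ← hfr.norm, hX.unit e' hee.mem₂]; norm_num
      have hyd : yc y ≤ d := by
        by_contra hgt
        push Not at hgt
        obtain ⟨θ, hθ⟩ : ∃ θ, θ = (d - yc x1) / s1 := ⟨_, rfl⟩
        have hθ0 : 0 < θ := by rw [hθ]; exact div_pos (by linarith) hs1
        have hθ1 : θ < 1 := by rw [hθ, div_lt_one hs1]; linarith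
        have hθs : θ * s1 = d - yc x1 := by rw [hθ]; field_simp
        have J1 := hJ x1 hx1
        have J2 := hJ y hy.cl
        have k3 := mul_nonneg (sub_nonneg.2 hθ1.le) (neg_nonneg.2 J1)
        have k4 := mul_nonneg hθ0.le (neg_nonneg.2 J2)
        have k5 : Real.cos η * (xc x1 + θ * p) ≤ 0 := by
          have e1 : (1 - θ) * -(Real.cos η * xc x1 + Real.sin η * (yc x1 - d))
              + θ * -(Real.cos η * xc y + Real.sin η * (yc y - d))
              = -(Real.cos η * (xc x1 + θ * p)) := by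
            rw [hpd]
            rw [hsd] at hθs
            linear_combination (-Real.sin η) * hθs
          linarith
        have k6 : xc x1 + θ * p ≤ 0 := by
          by_contra h
          push Not at h
          have := mul_pos hc h
          linarith
        have k7 := hv.cl e hee.mem₁
        rw [← hee.on₁, hco e.1 v, hco e.1 x1, hxv, hyv, ← ha, ← hb] at k7
        have k8 : 0 ≤ a * (xc x1 + θ * p) := by
          have e2 : a * (xc x1 + θ * p) = a * xc x1 - b * (d - yc x1) := by
            rw [← hθs]; linear_combination θ * g1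
          rw [e2]; linarith
        have k9 : 0 ≤ xc x1 + θ * p := by
          by_contra h
          push Not at h
          have := mul_neg_of_pos_of_neg hapos h
          linarith
        have k10 : xc x1 + θ * p = 0 := le_antisymm k6 k9
        have k11 : v ∈ openSegment ℝ x1 y := by
          refine ⟨1 - θ, θ, by linarith, hθ0, by ring, ?_⟩
          have e3 : (1 - θ) • x1 + θ • y = x1 + (θ : ℂ) * (y - x1) := by
            simp only [Complex.real_smul]; push_cast; ring
          rw [e3]
          have e4 : xc (x1 + (θ : ℂ) * (y - x1)) = xc x1 + θ * p := by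
            have := htau x1 (x1 + (θ : ℂ) * (y - x1))
            rw [add_sub_cancel_left, ip_rm, htau, ← hpd] at this
            linarith
          have e5 : yc (x1 + (θ : ℂ) * (y - x1)) = yc x1 + θ * s1 := by
            have := hnu x1 (x1 + (θ : ℂ) * (y - x1))
            rw [add_sub_cancel_left, ip_rm, hnu, ← hsd] at this
            linarith
          have e6 := hnorm v (x1 + (θ : ℂ) * (y - x1))
          rw [e4, e5, k10, hxv, hyv, hθs] at e6
          have e7 : ‖x1 + (θ : ℂ) * (y - x1) - v‖ ^ 2 = 0 := by rw [e6]; ring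
          have e8 := (pow_eq_zero_iff (two_ne_zero)).1 e7
          exact sub_eq_zero.1 (norm_eq_zero.1 e8)
        have k12 := (V3 v ⟨i, j, hv⟩ x1 hx1 y hy.cl k11).1
        rw [k12, hyv] at hYd
        exact lt_irrefl _ hYd
      have hyd' := hY0 y' hy'.cl
      have hr := S1 e' e t x1 y hsy hy hte.symm
      have hr' := S1 e e' t' x1 y' hee hy' hte'.symm
      have hny : y ≠ x1 := fun h => by
        rw [h, sub_self] at hsd
        linarith
      have hny' : y' ≠ x1 := fun h => by
        rw [h, sub_self] at hsd'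
        linarith
      have hip : ip e.1 e'.1 = a * a' + b * b' := by
        rw [hfr.pars, ha, ha', hb, hb']; ring
      have hip' : ip e'.1 e.1 = a * a' + b * b' := by rw [ip_comm', hip]
      have hdt : |dt e.1 e'.1| = |a * b' - b * a'| := by
        rw [hfr.absdt, ha, ha', hb, hb', ← abs_neg]
        congr 1; ring
      have hdt' : |dt e'.1 e.1| = |a * b' - b * a'| := by
        rw [← hdt]
        rw [← abs_neg]
        congr 1
        simp only [dt]; ring
      refine L2 (d := d) (r := ‖x1 - y‖) (r' := ‖x1 - y'‖) hd0 hab hab' hp hp' hs1 hs2 g1 g3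
        hapos hapos' ?_ ?_ (by rw [hd]; linarith) (by rw [hd]; linarith)
        (by rw [hsd, hsd']; linarith) ?_ ?_
      · rw [hnorm, hpd, hsd]; ring
      · rw [hnorm, hpd', hsd']; ring
      · intro h1 h2
        have h3 := S2 e e' t t' x1 y y' hee hy hte hy' hte' hny hny' (by rw [hip]; exact h1) h2
        rw [hdt] at h3
        rw [hd]; linarith
      · intro h1 h2
        have h3 := S2 e' e t' t x1 y' y hsy hy' hte' hy hte hny' hny (by rw [hip']; exact h1) h2
        rw [hdt'] at h3
        rw [hd]; linarith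
    obtain ⟨t, y, hy, hte, g1, g2⟩ := end' E2 hee
    have hsy : VxOf X e' e x1 := (V5 _ _ _ hee).2.1
    obtain ⟨t', y', hy', hte', g3, g4⟩ := end' E2 hsy
    have hΔ : ip τ e.1 * (-ip q.1 e'.1) - (-ip q.1 e.1) * ip τ e'.1 ≠ 0 := by
      intro h
      have h1 := (V5 _ _ _ hee).2.2
      have h2 := hfr.absdt e.1 e'.1
      have h3 : ip τ e.1 * ip q.1 e'.1 - ip q.1 e.1 * ip τ e'.1 = 0 := by linarith
      rw [h3, abs_zero, abs_eq_zero] at h2
      exact h1 h2
    have hcone : ∀ w ∈ Cl X, ∃ l m : ℝ, 0 ≤ l ∧ 0 ≤ m ∧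
        yc w - yc x1 = l * (yc y - yc x1) + m * (yc y' - yc x1) := by
      intro w hw
      have w1 : ip e.1 (w - x1) ≤ 0 := by
        rw [ip_sub', hee.on₁]; linarith [hw e hee.mem₁]
      have w2 : ip e'.1 (w - x1) ≤ 0 := by
        rw [ip_sub', hee.on₂]; linarith [hw e' hee.mem₂]
      refine ⟨ip e'.1 (w - x1) / ip e'.1 (y - x1), ip e.1 (w - x1) / ip e.1 (y' - x1),
        div_nonneg_of_nonpos w2 g2.le, div_nonneg_of_nonpos w1 g4.le, ?_⟩
      obtain ⟨l, hl⟩ : ∃ l, l = ip e'.1 (w - x1) / ip e'.1 (y - x1) := ⟨_, rfl⟩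
      obtain ⟨m, hm'⟩ : ∃ l, l = ip e.1 (w - x1) / ip e.1 (y' - x1) := ⟨_, rfl⟩
      rw [← hl, ← hm']
      have l1 : l * ip e'.1 (y - x1) = ip e'.1 (w - x1) := by
        rw [hl, div_mul_cancel₀ _ g2.ne]
      have m1 : m * ip e.1 (y' - x1) = ip e.1 (w - x1) := by
        rw [hm', div_mul_cancel₀ _ g4.ne]
      rw [hdf] at l1 m1 g1 g3
      rw [hdf e'.1 x1 w] at l1
      rw [hdf e.1 x1 w] at m1
      have h5 : (ip τ e.1 * (-ip q.1 e'.1) - (-ip q.1 e.1) * ip τ e'.1) *
          ((yc w - yc x1) - (l * (yc y - yc x1) + m * (yc y' - yc x1))) = 0 := by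
        linear_combination (-ip τ e.1) * l1 + (ip τ e'.1) * m1
          + (ip τ e'.1 * l) * g1 - (ip τ e.1 * m) * g3
      rcases mul_eq_zero.1 h5 with h6 | h6
      · exact absurd h6 hΔ
      · linarith
    obtain ⟨l, m, hl, hm', hlm⟩ := hcone F hFcl
    obtain ⟨l', m', hl', hm'', hlm'⟩ := hcone v hv.cl
    rw [hyF] at hlm
    rw [hyv] at hlm'
    rcases le_or_gt (yc y - yc x1) 0 with h1 | h1
    · have h2 : 0 < yc y' - yc x1 := by
        by_contra h
        push Not at h
        have n1 := mul_nonneg hl' (neg_nonneg.2 h1)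
        have n2 := mul_nonneg hm'' (neg_nonneg.2 h)
        linarith
      have h3 : yc y - yc x1 < 0 := by
        by_contra h
        push Not at h
        have n1 := mul_nonneg hl h
        have n2 := mul_nonneg hm' h2.le
        linarith
      exact key2 e' e t' t y' y hsy hy' hte' g3 g4 hy hte g1 g2 h2 h3
    · have h3 : yc y' - yc x1 < 0 := by
        by_contra h
        push Not at h
        have n1 := mul_nonneg hl h1.le
        have n2 := mul_nonneg hm' h
        linarith
      exact key2 e e' t t' y y' hee hy hte g1 g2 hy' hte' g3 g4 h1 h3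

/-- the row NCL as a corollary -/
theorem ncl_of_nck (h : NckStmt) : NclStmt :=
  fun X L hX hL hB i j q v α η hv hq hqi hqj hqv hF ha1 ha2 he1 he2 =>
    h X L hX hL hB i j q v α η hv hq hqi hqj hqv hF ha1 ha2 he1 (by linarith [Real.pi_pos])
      (by linarith [Real.pi_pos])

end Pool.Agent.QUD.H89
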